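import Pool.Agent.TH525.PF.Hyp

/-!
# Skew products with circle fibres: transitivity outside mode-locking
-/

set_option autoImplicit false
set_option linter.unusedSectionVars false

open Set Filter Topology MeasureTheory

namespace Pool.Agent.V8H61.SK

open Pool.Agent.H728R2.OS Pool.Agent.H728R2.FA Pool.Agent.TH525.PF

/-! ### Orbits of the lifts -/

section orb

variable {B : Type*} {T : B → B} {F : B → ℝ → ℝ}

theorem orb_add (θ : ℝ) (n k : ℕ) (x : B) (y : ℝ) :
    orb T F θ (n + k) x y = orb T F θ k (T^[n] x) (orb T F θ n x y) := by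
  induction k with
  | zero => rfl
  | succ k ih =>
    rw [← add_assoc, orb, orb, ih, ← Function.iterate_add_apply, add_comm k n]

theorem F_int (per : ∀ x y, F x (y + 1) = F x y + 1) (x : B) (y : ℝ) (j : ℤ) :
    F x (y + j) = F x y + j := by
  induction j using Int.induction_on with
  | zero => simp
  | succ k ih =>
    push_cast at ih ⊢
    rw [← add_assoc, per, ih]
    ring
  | pred k ih =>
    have h := per x (y + ((-(k : ℤ) - 1 : ℤ) : ℝ))
    have e : y + ((-(k : ℤ) - 1 : ℤ) : ℝ) + 1 = y + ((-(k : ℤ) : ℤ) : ℝ) := by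
      push_cast
      ring
    rw [e, ih] at h
    push_cast at h ⊢
    linarith

theorem orb_int (per : ∀ x y, F x (y + 1) = F x y + 1) (θ : ℝ) (n : ℕ) (x : B) (y : ℝ) (j : ℤ) :
    orb T F θ n x (y + j) = orb T F θ n x y + j := by
  induction n with
  | zero => rfl
  | succ n ih =>
    rw [orb, orb, ih, F_int per]
    ring

theorem orb_mono (mono : ∀ x, Monotone (F x)) {a b : ℝ} (hab : a ≤ b) (n : ℕ) (x : B) {y z : ℝ}
    (hyz : y ≤ z) : orb T F a n x y ≤ orb T F b n x z := by
  induction n with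
  | zero => exact hyz
  | succ n ih =>
    rw [orb, orb]
    exact add_le_add (mono _ ih) hab

/-- a shift by an integer persists -/
theorem orb_persist (per : ∀ x y, F x (y + 1) = F x y + 1) (mono : ∀ x, Monotone (F x)) {a b : ℝ}
    (hab : a ≤ b) (n : ℕ) (x : B) {y z : ℝ} {j : ℤ} (hyz : y + j ≤ z) :
    orb T F a n x y + j ≤ orb T F b n x z := by
  rw [← orb_int per]
  exact orb_mono mono hab n x hyz

theorem orb_two (per : ∀ x y, F x (y + 1) = F x y + 1) (mono : ∀ x, Monotone (F x)) {a b : ℝ}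
    (n : ℕ) (x : B) (v : ℝ) (h : orb T F a n x 0 + 2 ≤ orb T F b n x 0) :
    orb T F a n x v + 1 ≤ orb T F b n x v := by
  have h1 : orb T F b n x 0 + (⌊v⌋ : ℝ) ≤ orb T F b n x v := by
    rw [← orb_int per]
    refine orb_mono mono le_rfl n x ?_
    rw [zero_add]
    exact Int.floor_le v
  have h2 : orb T F a n x v ≤ orb T F a n x 0 + ((⌊v⌋ + 1 : ℤ) : ℝ) := by
    rw [← orb_int per]
    refine orb_mono mono le_rfl n x ?_
    rw [zero_add]
    push_cast
    exact (Int.lt_floor_add_one v).le
  push_cast at h2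
  linarith

theorem orb_continuous (cont : ∀ x, Continuous (F x)) (n : ℕ) (x : B) (y : ℝ) :
    Continuous fun θ => orb T F θ n x y := by
  induction n with
  | zero => exact continuous_const
  | succ n ih =>
    show Continuous fun θ => F (T^[n] x) (orb T F θ n x y) + θ
    exact ((cont _).comp ih).add continuous_id

end orb

/-! ### Recurrence -/

/-- almost every point visits a set of positive measure infinitely often -/
theorem ae_frequently {B : Type*} [MeasurableSpace B] {m : Measure B} [IsProbabilityMeasure m]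
    {T : B → B} (erg : Ergodic T m) {A : Set B} (mA : MeasurableSet A) (hA : m A ≠ 0) :
    ∀ᵐ x ∂m, ∃ᶠ n in atTop, T^[n] x ∈ A := by
  have hcons : Conservative T m := erg.toMeasurePreserving.conservative
  have mT : Measurable T := erg.measurable
  set S : Set B := {x | ∃ᶠ n in atTop, T^[n] x ∈ A} with hS
  have mS : MeasurableSet S := by
    have : S = limsup (fun n => {x | T^[n] x ∈ A}) atTop := by
      ext x
      simp only [hS, mem_ofPred_eq, mem_limsup_iff_frequently_mem]
    rw [this]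
    exact MeasurableSet.measurableSet_limsup fun n => (mT.iterate n) mA
  have hinv : T ⁻¹' S = S := by
    ext x
    simp only [hS, mem_preimage, mem_ofPred_eq]
    have h1 : ∀ n : ℕ, T^[n] (T x) = T^[n + 1] x := fun n => (Function.iterate_succ_apply T n x).symm
    simp only [h1]
    constructor
    · intro h
      rw [frequently_atTop] at h ⊢
      intro a
      obtain ⟨b, hb, hb2⟩ := h a
      exact ⟨b + 1, by omega, hb2⟩
    · intro h
      rw [frequently_atTop] at h ⊢
      intro a
      obtain ⟨b, hb, hb2⟩ := h (a + 1)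
      obtain ⟨k, rfl⟩ : ∃ k, b = k + 1 := ⟨b - 1, by omega⟩
      exact ⟨k, by omega, hb2⟩
  have hrec : ∀ᵐ x ∂m, x ∈ A → x ∈ S :=
    hcons.ae_mem_imp_frequently_image_mem mA.nullMeasurableSet
  rcases erg.toPreErgodic.ae_empty_or_univ mS hinv with h | h
  · exfalso
    have h1 : ∀ᵐ x ∂m, x ∉ S := measure_eq_zero_iff_ae_notMem.1 (ae_eq_empty.1 h)
    apply hA
    rw [measure_eq_zero_iff_ae_notMem]
    filter_upwards [hrec, h1] with x h2 h3 h4
    exact h3 (h2 h4)
  · have h1 := ae_eq_univ.1 h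
    rwa [ae_iff]

section main

variable {B : Type*} [MetricSpace B] [CompactSpace B] [MeasurableSpace B] [BorelSpace B]
  {m : Measure B} [IsProbabilityMeasure m]

omit [CompactSpace B] [BorelSpace B] in
theorem orb_meas (T : B ≃ₜ B) [BorelSpace B] {F : B → ℝ → ℝ} (hF : Measurable (Function.uncurry F))
    (θ : ℝ) (n : ℕ) (y : ℝ) : Measurable fun x => orb T F θ n x y := by
  induction n with
  | zero => exact measurable_const
  | succ n ih =>
    show Measurable fun x => F (T^[n] x) (orb T F θ n x y) + θ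
    have h1 : Measurable fun x => (T^[n] x, orb T F θ n x y) :=
      (T.continuous.measurable.iterate n).prodMk ih
    exact (hF.comp h1).add_const θ

/-- If the rotation numbers differ, then the orbits of the lifts separate. -/
theorem separate (T : B ≃ₜ B) (erg : Ergodic T m) {F : B → ℝ → ℝ}
    (hFm : Measurable (Function.uncurry F)) (per : ∀ x y, F x (y + 1) = F x y + 1)
    (mono : ∀ x, Monotone (F x)) {a b : ℝ} (hab : a ≤ b) (hne : ¬ SameRotation m T F a b) :
    ∀ᵐ x ∂m, ∀ y, ∃ N : ℕ, ∀ n, N ≤ n → orb T F a n x y + 1 ≤ orb T F b n x y := by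
  have hk : ∃ k : ℕ, m {x | orb T F a k x 0 + 2 ≤ orb T F b k x 0} ≠ 0 := by
    by_contra hcon
    push Not at hcon
    apply hne
    have h1 : ∀ᵐ x ∂m, ∀ k : ℕ, ¬ (orb T F a k x 0 + 2 ≤ orb T F b k x 0) := by
      rw [ae_all_iff]
      intro k
      exact measure_eq_zero_iff_ae_notMem.1 (hcon k)
    filter_upwards [h1] with x hx
    have h2 : Tendsto (fun n : ℕ => 2 / (n : ℝ)) atTop (𝓝 0) :=
      tendsto_const_div_atTop_nhds_zero_nat 2
    refine squeeze_zero (fun n => ?_) (fun n => ?_) h2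
    · exact div_nonneg (sub_nonneg.2 (orb_mono mono hab n x le_rfl)) (Nat.cast_nonneg n)
    · refine div_le_div_of_nonneg_right ?_ (Nat.cast_nonneg n)
      have := hx n
      push Not at this
      linarith
  obtain ⟨k, hk⟩ := hk
  have mP : MeasurableSet {x | orb T F a k x 0 + 2 ≤ orb T F b k x 0} :=
    measurableSet_le ((orb_meas T hFm a k 0).add_const 2) (orb_meas T hFm b k 0)
  filter_upwards [ae_frequently erg mP hk] with x hx y
  obtain ⟨n, hn⟩ := hx.exists
  refine ⟨n + k, fun l hl => ?_⟩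
  obtain ⟨j, rfl⟩ := Nat.exists_eq_add_of_le hl
  have h1 := orb_two per mono k (T^[n] x) (orb T F a n x y) hn
  have h2 : orb T F b k (T^[n] x) (orb T F a n x y) ≤ orb T F b k (T^[n] x) (orb T F b n x y) :=
    orb_mono mono le_rfl k _ (orb_mono mono hab n x le_rfl)
  have h3 : orb T F a k (T^[n] x) (orb T F a n x y) + ((1 : ℤ) : ℝ) ≤
      orb T F b k (T^[n] x) (orb T F b n x y) := by
    push_cast
    linarith
  have h4 := orb_persist (T := T) per mono hab j (T^[n + k] x) h3
  rw [orb_add a (n + k) j x y, orb_add a n k x y, orb_add b (n + k) j x y, orb_add b n k x y]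
  push_cast at h4
  exact h4

omit [CompactSpace B] [MeasurableSpace B] [BorelSpace B] in
theorem rotated_iter (T : B ≃ₜ B) (f : (B × Circ) ≃ₜ (B × Circ)) {F : B → ℝ → ℝ}
    (hlift : ∀ (x : B) (y : ℝ), f (x, (y : UnitAddCircle)) = (T x, (F x y : UnitAddCircle)))
    (θ : ℝ) (n : ℕ) (x : B) (y : ℝ) :
    (rotated f θ)^[n] (x, (y : UnitAddCircle)) = (T^[n] x, (orb T F θ n x y : UnitAddCircle)) := by
  induction n with
  | zero => rfl
  | succ n ih =>
    rw [Function.iterate_succ_apply', ih, Function.iterate_succ_apply']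
    show ((f (T^[n] x, (orb T F θ n x y : UnitAddCircle))).1,
      (f (T^[n] x, (orb T F θ n x y : UnitAddCircle))).2 + (θ : UnitAddCircle)) = _
    rw [hlift]
    rfl

omit [MetricSpace B] [CompactSpace B] [MeasurableSpace B] [BorelSpace B] in
theorem rotated_continuous [TopologicalSpace B] (f : (B × Circ) ≃ₜ (B × Circ)) (n : ℕ)
    (p : B × Circ) : Continuous fun θ : ℝ => (rotated f θ)^[n] p := by
  induction n with
  | zero => exact continuous_const
  | succ n ih =>
    have h1 : (fun θ : ℝ => (rotated f θ)^[n + 1] p) = fun θ : ℝ =>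
        ((f ((rotated f θ)^[n] p)).1, (f ((rotated f θ)^[n] p)).2 + (θ : UnitAddCircle)) := by
      funext θ
      rw [Function.iterate_succ_apply']
      rfl
    rw [h1]
    have h2 : Continuous fun θ : ℝ => f ((rotated f θ)^[n] p) := f.continuous.comp ih
    exact (continuous_fst.comp h2).prodMk
      ((continuous_snd.comp h2).add (AddCircle.continuous_mk' 1))

/-- The single attractor. -/
def Full (m : Measure B) : Set (B × Circ) := m.support ×ˢ (univ : Set Circ)

omit [CompactSpace B] [BorelSpace B] [IsProbabilityMeasure m] in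
theorem full_closed : IsClosed (Full m) := m.isClosed_support.prod isClosed_univ

omit [CompactSpace B] in
theorem support_image (T : B ≃ₜ B) (hT : MeasurePreserving T m m) (x : B) :
    T x ∈ m.support ↔ x ∈ m.support := by
  rw [Measure.mem_support_iff_forall, Measure.mem_support_iff_forall]
  constructor
  · intro h U hU
    obtain ⟨V, hVU, hVo, hxV⟩ := mem_nhds_iff.1 hU
    have h1 : T '' V ∈ 𝓝 (T x) := (T.isOpenMap V hVo).mem_nhds ⟨x, hxV, rfl⟩
    have h2 := h _ h1
    have h3 : m (T '' V) = m V := by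
      rw [← hT.measure_preimage (T.isOpenMap V hVo).measurableSet.nullMeasurableSet,
        T.preimage_image]
    rw [h3] at h2
    exact h2.trans_le (measure_mono hVU)
  · intro h U hU
    obtain ⟨V, hVU, hVo, hxV⟩ := mem_nhds_iff.1 hU
    have h1 : T ⁻¹' V ∈ 𝓝 x := (hVo.preimage T.continuous).mem_nhds hxV
    have h2 := h _ h1
    rw [hT.measure_preimage hVo.measurableSet.nullMeasurableSet] at h2
    exact h2.trans_le (measure_mono hVU)

omit [CompactSpace B] in
theorem full_image (T : B ≃ₜ B) (hT : MeasurePreserving T m m) (g : (B × Circ) ≃ₜ (B × Circ))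
    (hg : ∀ p, (g p).1 = T p.1) : g '' Full m = Full m := by
  apply Subset.antisymm
  · rintro _ ⟨p, hp, rfl⟩
    refine ⟨?_, mem_univ _⟩
    rw [hg]
    exact (support_image T hT p.1).2 hp.1
  · intro p hp
    refine ⟨g.symm p, ⟨?_, mem_univ _⟩, g.apply_symm_apply p⟩
    rw [← support_image T hT, ← hg, g.apply_symm_apply]
    exact hp.1

/-- **Transitivity for a generic parameter of an interval without mode-locking.** -/
theorem transitive_param (T : B ≃ₜ B) (erg : Ergodic T m) (f : (B × Circ) ≃ₜ (B × Circ))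
    {F : B → ℝ → ℝ} (hFm : Measurable (Function.uncurry F))
    (hlift : ∀ (x : B) (y : ℝ), f (x, (y : UnitAddCircle)) = (T x, (F x y : UnitAddCircle)))
    (per : ∀ x y, F x (y + 1) = F x y + 1) (mono : ∀ x, Monotone (F x))
    (cont : ∀ x, Continuous (F x)) {J : Set ℝ} (hJo : IsOpen J)
    (hJ : ∀ a ∈ J, ∀ b ∈ J, a < b → Icc a b ⊆ J → ¬ SameRotation m T F a b) :
    ∀ᶠ θ in residual ℝ, θ ∈ J → ∃ p ∈ Full m,
      Full m ⊆ closure (range fun n : ℕ => (rotated f θ)^[n] p) := by
  classical
  set 𝓑 := TopologicalSpace.countableBasis (B × Circ) with h𝓑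
  have hBc : 𝓑.Countable := TopologicalSpace.countable_countableBasis _
  have hBb : TopologicalSpace.IsTopologicalBasis 𝓑 := TopologicalSpace.isBasis_countableBasis _
  -- the good parameters for a pair of open sets
  set W : Set (B × Circ) → Set (B × Circ) → Set ℝ := fun U V =>
    {θ | ∃ p ∈ U ∩ Full m, ∃ n : ℕ, (rotated f θ)^[n] p ∈ V} with hW
  have hWo : ∀ U V, IsOpen V → IsOpen (W U V) := by
    intro U V hV
    have : W U V = ⋃ p ∈ U ∩ Full m, ⋃ n : ℕ, (fun θ : ℝ => (rotated f θ)^[n] p) ⁻¹' V := by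
      ext θ
      simp only [hW, mem_ofPred_eq, mem_iUnion, exists_prop, mem_preimage]
    rw [this]
    exact isOpen_biUnion fun p _ => isOpen_iUnion fun n => hV.preimage (rotated_continuous f n p)
  have hsupp : ∀ᵐ x ∂m, x ∈ m.support := m.support_mem_ae
  have hWd : ∀ U V, IsOpen U → IsOpen V → (U ∩ Full m).Nonempty → (V ∩ Full m).Nonempty →
      J ⊆ closure (W U V) := by
    intro U V hU hV hUne hVne
    obtain ⟨⟨x0, c0⟩, h0U, h0⟩ := hUne
    obtain ⟨⟨x1, c1⟩, h1V, h1⟩ := hVne
    obtain ⟨U1, hU1, U2, hU2, hU12⟩ := mem_nhds_prod_iff.1 (hU.mem_nhds h0U)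
    obtain ⟨V1, hV1, V2, hV2, hV12⟩ := mem_nhds_prod_iff.1 (hV.mem_nhds h1V)
    have p0 : 0 < m U1 := (Measure.mem_support_iff_forall x0).1 h0.1 U1 hU1
    obtain ⟨V1', hV1', hV1o, hxV1⟩ := mem_nhds_iff.1 hV1
    have p1 : 0 < m V1' := (Measure.mem_support_iff_forall x1).1 h1.1 V1' (hV1o.mem_nhds hxV1)
    intro θ0 hθ0
    rw [Metric.mem_closure_iff]
    intro ε hε
    obtain ⟨δ, hδ, hball⟩ := Metric.isOpen_iff.1 hJo θ0 hθ0
    set η := min (δ / 2) (ε / 2) with hη
    have hηp : 0 < η := lt_min (half_pos hδ) (half_pos hε)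
    have hηδ : η < δ := (min_le_left _ _).trans_lt (half_lt_self hδ)
    have hηε : η < ε := (min_le_right _ _).trans_lt (half_lt_self hε)
    have hsub : Icc θ0 (θ0 + η) ⊆ J := by
      intro t ht
      apply hball
      rw [Metric.mem_ball, Real.dist_eq, abs_of_nonneg (by linarith [ht.1])]
      linarith [ht.2]
    have hnot := hJ θ0 hθ0 (θ0 + η) (hsub ⟨by linarith, le_rfl⟩) (by linarith) hsub
    have hsep := separate T erg hFm per mono (show θ0 ≤ θ0 + η by linarith) hnot
    have hrec := ae_frequently erg hV1o.measurableSet p1.ne'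
    have hex : ∃ x ∈ U1, x ∈ m.support ∧ (∀ y, ∃ N : ℕ, ∀ n, N ≤ n →
        orb T F θ0 n x y + 1 ≤ orb T F (θ0 + η) n x y) ∧ ∃ᶠ n in atTop, T^[n] x ∈ V1' := by
      by_contra hcon
      push Not at hcon
      apply p0.ne'
      rw [measure_eq_zero_iff_ae_notMem]
      filter_upwards [hsupp, hsep, hrec] with x a1 a2 a3 a4
      exact a3 (hcon x a4 a1 a2)
    obtain ⟨x, hxU, hxs, hxsep, hxrec⟩ := hex
    obtain ⟨y, rfl⟩ : ∃ t : ℝ, (t : UnitAddCircle) = c0 := QuotientAddGroup.mk_surjective c0
    obtain ⟨z, rfl⟩ : ∃ t : ℝ, (t : UnitAddCircle) = c1 := QuotientAddGroup.mk_surjective c1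
    obtain ⟨N, hN⟩ := hxsep y
    obtain ⟨n, hn, hnV⟩ := (frequently_atTop.1 hxrec) N
    have hgap := hN n hn
    -- choose the lift of `z` in the window
    set z' := z + ⌈orb T F θ0 n x y - z⌉ with hz'
    have hz1 : orb T F θ0 n x y ≤ z' := by
      have := Int.le_ceil (orb T F θ0 n x y - z)
      rw [hz']; linarith
    have hz2 : z' ≤ orb T F (θ0 + η) n x y := by
      have := Int.ceil_lt_add_one (orb T F θ0 n x y - z)
      rw [hz']; linarith
    obtain ⟨θ, hθ, hθz⟩ := intermediate_value_Icc (show θ0 ≤ θ0 + η by linarith)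
      (orb_continuous cont n x y).continuousOn ⟨hz1, hz2⟩
    refine ⟨θ, ⟨(x, (y : UnitAddCircle)), ⟨hU12 ⟨hxU, mem_of_mem_nhds hU2⟩, hxs, mem_univ _⟩, n,
      ?_⟩, ?_⟩
    · rw [rotated_iter T f hlift]
      have hθz' : orb T F θ n x y = z' := hθz
      rw [hθz']
      apply hV12
      refine ⟨hV1' hnV, ?_⟩
      have e : (z' : UnitAddCircle) = (z : UnitAddCircle) := by
        rw [hz', AddCircle.coe_add]
        have : (((⌈orb T F θ0 n x y - z⌉ : ℤ) : ℝ) : UnitAddCircle) = 0 := by
          rw [AddCircle.coe_eq_zero_iff]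
          exact ⟨⌈orb T F θ0 n x y - z⌉, by simp⟩
        rw [this, add_zero]
      show (z' : UnitAddCircle) ∈ V2
      rw [e]
      exact mem_of_mem_nhds hV2
    · rw [Real.dist_eq, abs_sub_comm, abs_of_nonneg (by linarith [hθ.1])]
      linarith [hθ.2]
  -- the residual set
  have hres : ∀ᶠ θ in residual ℝ, ∀ U ∈ 𝓑, ∀ V ∈ 𝓑, (U ∩ Full m).Nonempty →
      (V ∩ Full m).Nonempty → θ ∈ J → θ ∈ W U V := by
    rw [eventually_countable_ball hBc]
    intro U hU
    rw [eventually_countable_ball hBc]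
    intro V hV
    by_cases hUne : (U ∩ Full m).Nonempty
    swap
    · exact Eventually.of_forall fun θ h => absurd h hUne
    by_cases hVne : (V ∩ Full m).Nonempty
    swap
    · exact Eventually.of_forall fun θ _ h => absurd h hVne
    have hd := hWd U V (hBb.isOpen hU) (hBb.isOpen hV) hUne hVne
    have hopen : IsOpen (W U V ∪ (closure J)ᶜ) :=
      (hWo U V (hBb.isOpen hV)).union isClosed_closure.isOpen_compl
    have hdense : Dense (W U V ∪ (closure J)ᶜ) := by
      intro θ
      by_cases hθ : θ ∈ closure J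
      · have h1 : closure J ⊆ closure (W U V) := closure_minimal hd isClosed_closure
        exact closure_mono subset_union_left (h1 hθ)
      · exact subset_closure (Or.inr hθ)
    filter_upwards [residual_of_dense_open hopen hdense] with θ hθ _ _ hθJ
    rcases hθ with h | h
    · exact h
    · exact absurd (subset_closure hθJ) h
  filter_upwards [hres] with θ hθ hθJ
  -- Baire on the attractor
  have hcomp : CompactSpace (Full m) := isCompact_iff_compactSpace.1 full_closed.isCompact
  have hT := erg.toMeasurePreserving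
  have hne : Nonempty (Full m) := by
    have : ∃ x, x ∈ m.support := by
      by_contra hcon
      push Not at hcon
      have h1 : ∀ᵐ x ∂m, False := hsupp.mono fun x hx => hcon x hx
      exact (IsProbabilityMeasure.ne_zero m) (by simpa using h1)
    obtain ⟨x, hx⟩ := this
    exact ⟨⟨(x, 0), hx, mem_univ _⟩⟩
  set O : Set (B × Circ) → Set (Full m) := fun V =>
    {p | ∃ n : ℕ, (rotated f θ)^[n] (p : B × Circ) ∈ V} with hO
  have hOo : ∀ V, IsOpen V → IsOpen (O V) := by
    intro V hV
    have : O V = ⋃ n : ℕ, (fun p : Full m => (rotated f θ)^[n] (p : B × Circ)) ⁻¹' V := by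
      ext p
      simp only [hO, mem_ofPred_eq, mem_iUnion, mem_preimage]
    rw [this]
    exact isOpen_iUnion fun n => hV.preimage
      (((rotated f θ).continuous.iterate n).comp continuous_subtype_val)
  have hOd : ∀ V ∈ 𝓑, (V ∩ Full m).Nonempty → Dense (O V) := by
    intro V hV hVne p
    rw [mem_closure_iff]
    intro A hA hpA
    obtain ⟨A', hA', rfl⟩ := isOpen_induced_iff.1 hA
    obtain ⟨U, hU, hpU, hUA⟩ := hBb.mem_nhds_iff.1 (hA'.mem_nhds hpA)
    obtain ⟨q, ⟨hqU, hqF⟩, n, hn⟩ := hθ U hU V hV ⟨p, hpU, p.2⟩ hVne hθJ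
    exact ⟨⟨q, hqF⟩, hUA hqU, n, hn⟩
  have hBaire : Dense (⋂ V ∈ {V | V ∈ 𝓑 ∧ (V ∩ Full m).Nonempty}, O V) := by
    refine dense_biInter_of_isOpen (fun V hV => hOo V (hBb.isOpen hV.1)) ?_ fun V hV =>
      hOd V hV.1 hV.2
    exact hBc.mono fun V hV => hV.1
  obtain ⟨p, hp⟩ := hBaire.nonempty
  refine ⟨p, p.2, fun q hq => ?_⟩
  rw [mem_closure_iff_nhds]
  intro V hV
  obtain ⟨V', hV', hqV', hV'V⟩ := hBb.mem_nhds_iff.1 hV
  simp only [mem_iInter] at hp
  obtain ⟨n, hn⟩ := hp V' ⟨hV', ⟨q, hqV', hq⟩⟩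
  exact ⟨_, hV'V hn, n, rfl⟩

/-- one attractor carrying everything -/
theorem finite_of_transitive (T : B ≃ₜ B) (erg : Ergodic T m) (g : (B × Circ) ≃ₜ (B × Circ))
    (hg : ∀ p, (g p).1 = T p.1) (htr : ∃ p ∈ Full m,
      Full m ⊆ closure (range fun n : ℕ => g^[n] p))
    (μ : Measure (B × Circ)) (hμ : μ ≪ m.prod volume) (hμ' : m.prod volume ≪ μ) :
    FiniteAttractors μ g := by
  have hT := erg.toMeasurePreserving
  have himg := full_image T hT g hg
  have homega : ∀ p ∈ Full m, omegaLim g p ⊆ Full m := by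
    intro p hp q hq
    rw [← full_closed.closure_eq, mem_closure_iff_nhds]
    intro V hV
    obtain ⟨n, -, hn⟩ := hq V hV 0
    refine ⟨_, hn, ?_⟩
    clear hn
    induction n with
    | zero => exact hp
    | succ n ih =>
      rw [Function.iterate_succ_apply', ← himg]
      exact ⟨_, ih, rfl⟩
  have hnull : (m.prod (volume : Measure Circ)) (Full m)ᶜ = 0 := by
    have h1 : (Full m)ᶜ ⊆ (Prod.fst : B × Circ → B) ⁻¹' (m.support)ᶜ := by
      intro p hp hp'
      exact hp ⟨hp', mem_univ _⟩
    refine measure_mono_null h1 ?_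
    refine Measure.quasiMeasurePreserving_fst.preimage_null ?_
    have := m.support_mem_ae
    rwa [mem_ae_iff] at this
  refine ⟨1, fun _ => Full m, fun _ => ⟨himg, htr, ?_⟩, ?_⟩
  · rw [pos_iff_ne_zero]
    intro h0
    have h1 : (m.prod (volume : Measure Circ)) (Full m) = 0 :=
      hμ' (measure_mono_null homega h0)
    have h2 : (m.prod (volume : Measure Circ)) univ = 0 := by
      rw [← union_compl_self (Full m)]
      exact measure_union_null h1 hnull
    rw [← univ_prod_univ, Measure.prod_prod, measure_univ, one_mul] at h2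
    exact (isOpen_univ.measure_pos (volume : Measure Circ) univ_nonempty).ne' h2
  · refine hμ (measure_mono_null ?_ hnull)
    intro p hp hpF
    exact hp 0 (homega p hpF)

omit [CompactSpace B] [BorelSpace B] [IsProbabilityMeasure m] in
theorem same_mono {T : B → B} {F : B → ℝ → ℝ} (mono : ∀ x, Monotone (F x)) {a a' b' b : ℝ}
    (h1 : a ≤ a') (h2 : a' ≤ b') (h3 : b' ≤ b) (h : SameRotation m T F a b) :
    SameRotation m T F a' b' := by
  filter_upwards [h] with x hx
  refine squeeze_zero (fun n => ?_) (fun n => ?_) hx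
  · exact div_nonneg (sub_nonneg.2 (orb_mono mono h2 n x le_rfl)) (Nat.cast_nonneg n)
  · refine div_le_div_of_nonneg_right ?_ (Nat.cast_nonneg n)
    exact sub_le_sub (orb_mono mono h3 n x le_rfl) (orb_mono mono h1 n x le_rfl)

/-- **Finitely many attractors for a dense set of rotations.** -/
theorem dense_finite (T : B ≃ₜ B) (erg : Ergodic T m) (f : (B × Circ) ≃ₜ (B × Circ))
    {F : B → ℝ → ℝ} (hF : FibreLift T f F)
    (μ : Measure (B × Circ)) (hμ : μ ≪ m.prod volume) (hμ' : m.prod volume ≪ μ) :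
    Dense {θ : ℝ | FiniteAttractors μ (rotated f θ) ∧
      (ModeLocked m T F θ ∨ ∃ p ∈ Full m,
        Full m ⊆ closure (range fun n : ℕ => (rotated f θ)^[n] p))} := by
  obtain ⟨G, hGc, hG⟩ := hF.deriv
  have cont : ∀ x, Continuous (F x) := fun x =>
    continuous_iff_continuousAt.2 fun y => (hG x y).1.continuousAt
  have mono : ∀ x, Monotone (F x) := fun x =>
    (strictMono_of_deriv_pos fun y => by rw [(hG x y).1.deriv]; exact (hG x y).2).monotone
  have hfst : ∀ (θ : ℝ) (p : B × Circ), (rotated f θ p).1 = T p.1 := by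
    intro θ p
    obtain ⟨t, ht⟩ : ∃ t : ℝ, (t : UnitAddCircle) = p.2 := QuotientAddGroup.mk_surjective p.2
    have e : p = (p.1, (t : UnitAddCircle)) := by rw [ht]
    rw [e]
    show (f (p.1, (t : UnitAddCircle))).1 = T p.1
    rw [hF.lift]
  intro θ0
  rw [Metric.mem_closure_iff]
  intro ε hε
  by_cases hML : ∃ t ∈ Metric.ball θ0 ε, ModeLocked m T F t
  · obtain ⟨t, ht, ε', hε', hsame⟩ := hML
    have h1 := main_interval T erg f hF μ hμ hμ' hsame
    have hopen : IsOpen (Metric.ball θ0 ε ∩ Ioo (t - ε') (t + ε')) :=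
      Metric.isOpen_ball.inter isOpen_Ioo
    have hpos : 0 < volume (Metric.ball θ0 ε ∩ Ioo (t - ε') (t + ε')) :=
      hopen.measure_pos volume ⟨t, ht, by constructor <;> linarith⟩
    have hex : ∃ s ∈ Metric.ball θ0 ε ∩ Ioo (t - ε') (t + ε'),
        FiniteAttractors μ (rotated f s) := by
      by_contra hcon
      push Not at hcon
      apply hpos.ne'
      rw [measure_eq_zero_iff_ae_notMem]
      filter_upwards [h1] with s hs hs'
      exact hcon s hs' (hs hs'.2.1.le hs'.2.2.le)
    obtain ⟨s, ⟨hs1, hs2⟩, hs3⟩ := hex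
    refine ⟨s, ⟨hs3, Or.inl ⟨min (s - (t - ε')) (t + ε' - s), ?_, ?_⟩⟩, ?_⟩
    · exact lt_min (by linarith [hs2.1]) (by linarith [hs2.2])
    · have e1 := min_le_left (s - (t - ε')) (t + ε' - s)
      have e2 := min_le_right (s - (t - ε')) (t + ε' - s)
      have e3 : 0 < min (s - (t - ε')) (t + ε' - s) :=
        lt_min (by linarith [hs2.1]) (by linarith [hs2.2])
      exact same_mono mono (by linarith) (by linarith) (by linarith) hsame
    · rw [dist_comm]
      exact hs1
  · push Not at hML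
    have hJ : ∀ a ∈ Metric.ball θ0 ε, ∀ b ∈ Metric.ball θ0 ε, a < b →
        Icc a b ⊆ Metric.ball θ0 ε → ¬ SameRotation m T F a b := by
      intro a _ b _ hab hsub hsame
      refine hML ((a + b) / 2) (hsub ⟨by linarith, by linarith⟩) ⟨(b - a) / 2, by linarith, ?_⟩
      have e1 : (a + b) / 2 - (b - a) / 2 = a := by ring
      have e2 : (a + b) / 2 + (b - a) / 2 = b := by ring
      rw [e1, e2]
      exact hsame
    have hres := transitive_param T erg f hF.meas hF.lift hF.degree mono cont
      (Metric.isOpen_ball (x := θ0) (ε := ε)) hJ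
    have hd : Dense {θ : ℝ | θ ∈ Metric.ball θ0 ε → ∃ p ∈ Full m,
        Full m ⊆ closure (range fun n : ℕ => (rotated f θ)^[n] p)} := dense_of_mem_residual hres
    obtain ⟨θ, hθ1, hθ2⟩ := hd.exists_mem_open Metric.isOpen_ball
      ⟨θ0, Metric.mem_ball_self hε⟩
    have htr := hθ1 hθ2
    refine ⟨θ, ⟨finite_of_transitive T erg (rotated f θ) (hfst θ) htr μ hμ hμ', Or.inr htr⟩, ?_⟩
    rw [dist_comm]
    exact hθ2

/-- **Generic transitivity outside the closure of mode-locking.** -/
theorem generic_transitive (T : B ≃ₜ B) (erg : Ergodic T m) (f : (B × Circ) ≃ₜ (B × Circ))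
    {F : B → ℝ → ℝ} (hF : FibreLift T f F) :
    ∀ᶠ θ in residual ℝ, θ ∉ closure {t : ℝ | ModeLocked m T F t} → ∃ p ∈ Full m,
      Full m ⊆ closure (range fun n : ℕ => (rotated f θ)^[n] p) := by
  obtain ⟨G, hGc, hG⟩ := hF.deriv
  have cont : ∀ x, Continuous (F x) := fun x =>
    continuous_iff_continuousAt.2 fun y => (hG x y).1.continuousAt
  have mono : ∀ x, Monotone (F x) := fun x =>
    (strictMono_of_deriv_pos fun y => by rw [(hG x y).1.deriv]; exact (hG x y).2).monotone
  refine transitive_param T erg f hF.meas hF.lift hF.degree mono cont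
    (J := (closure {t : ℝ | ModeLocked m T F t})ᶜ) isClosed_closure.isOpen_compl ?_
  intro a _ b _ hab hsub hsame
  refine hsub ⟨(by linarith : a ≤ (a + b) / 2), by linarith⟩ (subset_closure ?_)
  refine ⟨(b - a) / 2, by linarith, ?_⟩
  have e1 : (a + b) / 2 - (b - a) / 2 = a := by ring
  have e2 : (a + b) / 2 + (b - a) / 2 = b := by ring
  rw [e1, e2]
  exact hsame

end main

end Pool.Agent.V8H61.SK
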